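import Pool.Agent.W207.PR.A0

/-! # Helly's selection theorem for monotone functions -/

open Filter Topology Set

namespace W973.PR

open W207.PR

theorem helly : S_HELLY := by
  intro F B hF hB
  have hK : IsCompact (Set.pi univ (fun q : ℚ => Icc (-(B q)) (B q))) :=
    isCompact_univ_pi (fun q => isCompact_Icc)
  have hx : ∀ j, (fun q : ℚ => F j q) ∈ Set.pi univ (fun q : ℚ => Icc (-(B q)) (B q)) := by
    intro j q _
    exact abs_le.1 (hB j q)
  obtain ⟨L, -, φ, hφ, hL⟩ := hK.tendsto_subseq hx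
  have hLq : ∀ q : ℚ, Tendsto (fun j => F (φ j) q) atTop (𝓝 (L q)) := by
    intro q
    exact (tendsto_pi_nhds.1 hL) q
  have hmono : ∀ p q : ℚ, p ≤ q → L p ≤ L q := by
    intro p q hpq
    exact le_of_tendsto_of_tendsto' (hLq p) (hLq q) (fun j => hF (φ j) (by exact_mod_cast hpq))
  let Q : ℝ → ℝ := fun u => ⨅ q : {q : ℚ // u < (q : ℝ)}, L q.1
  have hne : ∀ u : ℝ, Nonempty {q : ℚ // u < (q : ℝ)} := by
    intro u
    obtain ⟨q, hq⟩ := exists_rat_gt u
    exact ⟨⟨q, hq⟩⟩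
  have hbdd : ∀ u : ℝ, BddBelow (range fun q : {q : ℚ // u < (q : ℝ)} => L q.1) := by
    intro u
    obtain ⟨p, hp⟩ := exists_rat_lt u
    refine ⟨L p, ?_⟩
    rintro _ ⟨q, rfl⟩
    exact hmono p q.1 (by exact_mod_cast (hp.trans q.2).le)
  have hQle : ∀ (u : ℝ) (q : ℚ), u < q → Q u ≤ L q := fun u q h => ciInf_le (hbdd u) ⟨q, h⟩
  refine ⟨φ, Q, hφ, ?_, ?_⟩
  · intro u v huv
    have := hne v
    exact le_ciInf (fun q => hQle u q.1 (huv.trans_lt q.2))
  · intro u hu
    rw [tendsto_order]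
    constructor
    · intro a ha
      have h1 : ∀ᶠ v in 𝓝 u, a < Q v := hu.eventually (lt_mem_nhds ha)
      obtain ⟨v, hv, hav⟩ : ∃ v, v < u ∧ a < Q v := by
        have h2 : ∀ᶠ v in 𝓝[<] u, a < Q v := h1.filter_mono nhdsWithin_le_nhds
        obtain ⟨v, hv1, hv2⟩ := (h2.and self_mem_nhdsWithin).exists
        exact ⟨v, hv2, hv1⟩
      obtain ⟨q, hq1, hq2⟩ := exists_rat_btwn hv
      have h3 : a < L q := hav.trans_le (hQle v q hq1)
      filter_upwards [(hLq q).eventually (lt_mem_nhds h3)] with j hj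
      exact hj.trans_le (hF (φ j) hq2.le)
    · intro b hb
      have := hne u
      obtain ⟨q, hq⟩ := exists_lt_of_ciInf_lt hb
      filter_upwards [(hLq q.1).eventually (gt_mem_nhds hq)] with j hj
      exact (hF (φ j) q.2.le).trans_lt hj

end W973.PR
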